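import Pool.Agent.W95.EQ.Stm

/-!
Project EQM, part GRF: functional equation of the Green function.
-/

set_option autoImplicit false

open Polynomial Topology Filter MeasureTheory

namespace Pool.Agent.W778.EQ.GRF

open Pool.Agent.W95.BK Pool.Agent.W95.EQ

universe u

theorem Q_ne_zero {K : Type u} [Field K] (R : RMap K) : R.Q ≠ 0 := by
  intro h
  have h1 := R.cop
  have h2 := R.deg_eq
  have h3 := R.pos
  rw [h, isCoprime_zero_right] at h1
  rw [h, natDegree_zero, natDegree_eq_zero_of_isUnit h1] at h2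
  simp at h2
  omega

theorem main : S_GREEN.{u} → S_ITER.{u} → S_ACT.{u} → S_AVOID.{u} → S_GRF.{u} := by
  intro hG hI hA hV K _ _ _ R hd x y hx hxy
  obtain ⟨B, hB, hGr⟩ := hG K R hd
  obtain ⟨hId, -, hIc, -⟩ := hI K R
  obtain ⟨y', hy', he, hh, -⟩ := (hA K R).1 x hx
  have hyy : y = y' := OnePoint.coe_injective (hxy.symm.trans he)
  subst hyy
  have hQ0 : R.Q ≠ 0 := Q_ne_zero R
  have hxQ : x R.Q ≠ 0 := (hV K x hx).1 _ hQ0
  have hxQ' : 0 < x R.Q := lt_of_le_of_ne (x.nonneg' _) (Ne.symm hxQ)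
  have key : ∀ (N : ℕ) (h : K[X]), h.natDegree ≤ N →
      x (hom N h R.P R.Q) = x R.Q ^ N * y h := by
    intro N h hN
    obtain ⟨k, rfl⟩ := Nat.exists_eq_add_of_le hN
    rw [hom_add_right le_rfl, x.map_mul', BA.map_pow, hh h, pow_add]
    field_simp
  have hM : ∀ n, max (x (R.iter (n + 1)).P) (x (R.iter (n + 1)).Q) =
      x R.Q ^ (R.d ^ n) * max (y (R.iter n).P) (y (R.iter n).Q) := by
    intro n
    have e : R.iter (n + 1) = (R.iter n).comp R := hIc n
    rw [e]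
    change max (x (hom (R.iter n).d (R.iter n).P R.P R.Q))
      (x (hom (R.iter n).d (R.iter n).Q R.P R.Q)) = _
    rw [key _ _ (by rw [← (R.iter n).deg_eq]; exact le_max_left _ _),
      key _ _ (by rw [← (R.iter n).deg_eq]; exact le_max_right _ _), hId n,
      mul_max_of_nonneg _ _ (pow_pos hxQ' _).le]
  have hdpos : (0 : ℝ) < R.d := by
    have : 0 < R.d := by omega
    exact_mod_cast this
  -- both sides agree up to `2 B / d ^ n`
  have hb : ∀ n : ℕ, |gr R y - ((R.d : ℝ) * gr R x - Real.log (x R.Q))| ≤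
      2 * B / (R.d : ℝ) ^ n := by
    intro n
    obtain ⟨-, h1⟩ := (hGr x).2 (n + 1)
    obtain ⟨h2p, h2⟩ := (hGr y).2 n
    have hlog : Real.log (max (x (R.iter (n + 1)).P) (x (R.iter (n + 1)).Q)) =
        (R.d : ℝ) ^ n * Real.log (x R.Q) + Real.log (max (y (R.iter n).P) (y (R.iter n).Q)) := by
      rw [hM n, Real.log_mul (pow_pos hxQ' _).ne' h2p.ne', Real.log_pow]
      push_cast
      rfl
    rw [hlog] at h1
    set L := Real.log (max (y (R.iter n).P) (y (R.iter n).Q)) with hL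
    have hdn : (0 : ℝ) < (R.d : ℝ) ^ n := pow_pos hdpos n
    have e1 : (R.d : ℝ) * (((R.d : ℝ) ^ n * Real.log (x R.Q) + L) / (R.d : ℝ) ^ (n + 1) - gr R x) =
        Real.log (x R.Q) + L / (R.d : ℝ) ^ n - (R.d : ℝ) * gr R x := by
      rw [pow_succ]
      field_simp
    have e2 : |Real.log (x R.Q) + L / (R.d : ℝ) ^ n - (R.d : ℝ) * gr R x| ≤
        B / (R.d : ℝ) ^ n := by
      rw [← e1, abs_mul, abs_of_pos hdpos]
      calc (R.d : ℝ) * |((R.d : ℝ) ^ n * Real.log (x R.Q) + L) / (R.d : ℝ) ^ (n + 1) - gr R x| ≤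
          (R.d : ℝ) * (B / (R.d : ℝ) ^ (n + 1)) := mul_le_mul_of_nonneg_left h1 hdpos.le
        _ = B / (R.d : ℝ) ^ n := by rw [pow_succ]; field_simp
    have e3 : gr R y - ((R.d : ℝ) * gr R x - Real.log (x R.Q)) =
        (Real.log (x R.Q) + L / (R.d : ℝ) ^ n - (R.d : ℝ) * gr R x) -
          (L / (R.d : ℝ) ^ n - gr R y) := by ring
    rw [e3]
    calc _ ≤ |Real.log (x R.Q) + L / (R.d : ℝ) ^ n - (R.d : ℝ) * gr R x| +
          |L / (R.d : ℝ) ^ n - gr R y| := abs_sub _ _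
      _ ≤ B / (R.d : ℝ) ^ n + B / (R.d : ℝ) ^ n := add_le_add e2 h2
      _ = _ := by ring
  have hlim : Tendsto (fun n : ℕ => 2 * B / (R.d : ℝ) ^ n) atTop (𝓝 0) := by
    have h1 : (1 : ℝ) < R.d := by
      have : 1 < R.d := by omega
      exact_mod_cast this
    exact tendsto_const_nhds.div_atTop (tendsto_pow_atTop_atTop_of_one_lt h1)
  have h0 := ge_of_tendsto hlim (Eventually.of_forall hb)
  have h1 := abs_nonpos_iff.1 h0
  linarith

end Pool.Agent.W778.EQ.GRF
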