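import Pool.Agent.W95.EQ.Stm

/-!
Project EQM, part SAT: totally ramified invariant sets are in the Fatou set.
-/

set_option autoImplicit false

open Polynomial Topology Filter MeasureTheory

namespace Pool.Agent.W778.EQ.SAT

open Pool.Agent.W95.BK Pool.Agent.W95.EQ

universe u

theorem gauss_X {K : Type u} [NontriviallyNormedField K] [IsUltrametricDist K] (s : ℝ)
    (hs : 0 < s) : (gauss (0 : K) s hs) X = s := by
  change (taylor (0 : K) X).gaussNorm (NormedField.toAbsoluteValue K) s = s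
  rw [taylor_X, C_0, add_zero, ← monomial_one_one_eq_X, gaussNorm_monomial]
  simp

theorem main : S_RAM.{u} → S_NU.{u} → S_FUNC.{u} → S_SAT.{u} := by
  intro hR hN hF K _ _ _ R hd A hA hAR o₀ ho₀ hJ
  have h1 : ∀ o ∈ A, ∃ o' ∈ A, ∃ B : ℝ, 0 ≤ B ∧
      ∀ x : P1B K, nu o' (R.act x) ≤ B * nu o x ^ R.d := by
    intro o ho
    obtain ⟨h2, o', ho', h3⟩ := hAR o ho
    obtain ⟨B, hB, h4⟩ := hR K R o o' h3 h2
    exact ⟨o', ho', B, hB, h4⟩
  choose! F hF1 Bf hBf0 hBf using h1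
  obtain ⟨B, hB⟩ : ∃ B : ℝ, 1 ≤ B ∧ ∀ o ∈ A, Bf o ≤ B := by
    obtain ⟨C, hC⟩ := (hA.image Bf).bddAbove
    exact ⟨max 1 C, le_max_left _ _, fun o ho => (hC ⟨o, ho, rfl⟩).trans (le_max_right _ _)⟩
  obtain ⟨hB1, hB2⟩ := hB
  set ρ : ℝ := 1 / (4 * B) with hρ
  have hB0 : 0 < B := by linarith
  have hρ0 : 0 < ρ := by positivity
  have hBρ : B * ρ = 1 / 4 := by rw [hρ]; field_simp
  have hρ4 : ρ ≤ 1 / 4 := by nlinarith
  have step : ∀ o ∈ A, ∀ x : P1B K, nu o x < ρ → nu (F o) (R.act x) < ρ := by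
    intro o ho x hx
    have hn0 := (hN K o).2.1 x
    obtain ⟨k, hk⟩ : ∃ k, R.d = k + 2 := ⟨R.d - 2, by omega⟩
    have h2 := hBf o ho x
    rw [hk] at h2
    have h3 : nu o x ^ (k + 2) ≤ ρ * nu o x := by
      rw [pow_succ, pow_succ]
      have h4 : nu o x ^ k ≤ 1 := pow_le_one₀ hn0 (by linarith)
      have h5 : nu o x ^ k * nu o x ≤ 1 * ρ :=
        mul_le_mul h4 hx.le hn0 zero_le_one
      rw [one_mul] at h5
      exact mul_le_mul_of_nonneg_right h5 hn0
    have h4 : Bf o * nu o x ^ (k + 2) ≤ B * (ρ * nu o x) :=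
      mul_le_mul (hB2 o ho) h3 (pow_nonneg hn0 _) hB0.le
    have h5 : B * (ρ * nu o x) = 1 / 4 * nu o x := by rw [← mul_assoc, hBρ]
    linarith
  have iter : ∀ n : ℕ, ∀ o ∈ A, ∀ x : P1B K, nu o x < ρ →
      ∃ o' ∈ A, nu o' ((R.iter n).act x) < ρ := by
    intro n
    induction n with
    | zero =>
      intro o ho x hx
      refine ⟨o, ho, ?_⟩
      change nu o ((RMap.id K).act x) < ρ
      rw [(hF K).2]
      exact hx
    | succ n ih =>
      intro o ho x hx
      obtain ⟨o', ho', h2⟩ := ih o ho x hx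
      refine ⟨F o', hF1 o' ho', ?_⟩
      change nu (F o') ((R.comp (R.iter n)).act x) < ρ
      rw [(hF K).1]
      exact step o' ho' _ h2
  have hopen : IsOpen {x : P1B K | nu o₀ x < ρ} := isOpen_lt (hN K o₀).1 continuous_const
  have hmem : pt o₀ ∈ {x : P1B K | nu o₀ x < ρ} := by
    change nu o₀ (pt o₀) < ρ
    rw [((hN K o₀).2.2.1 _).2 rfl]
    exact hρ0
  have hfin := hJ _ hopen hmem
  -- infinitely many omitted points
  let φ : ℝ → P1B K := fun s => if hs : 0 < s then ((gauss (0 : K) s hs : BA K) : P1B K) else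
    OnePoint.infty
  have hinj : Set.InjOn φ (Set.Icc 1 2) := by
    intro s hs t ht hst
    have hs0 : 0 < s := by linarith [hs.1]
    have ht0 : 0 < t := by linarith [ht.1]
    simp only [φ, dif_pos hs0, dif_pos ht0] at hst
    have h2 := OnePoint.coe_injective hst
    rw [← gauss_X (K := K) s hs0, ← gauss_X (K := K) t ht0, h2]
  have hmaps : Set.MapsTo φ (Set.Icc 1 2)
      (⋃ n : ℕ, (R.iter n).act '' {x : P1B K | nu o₀ x < ρ})ᶜ := by
    intro s hs hcon
    have hs0 : 0 < s := by linarith [hs.1]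
    rw [Set.mem_iUnion] at hcon
    obtain ⟨n, x, hx, hxs⟩ := hcon
    obtain ⟨o', ho', h2⟩ := iter n o₀ ho₀ x hx
    rw [hxs] at h2
    simp only [φ, dif_pos hs0] at h2
    have h3 := (hN K o').2.2.2 s hs0 hs.1
    have h4 : (1 : ℝ) / 2 ≤ 1 / s := one_div_le_one_div_of_le hs0 hs.2
    linarith
  exact (Set.infinite_of_injOn_mapsTo hinj hmaps (Set.Icc_infinite (by norm_num))) hfin

end Pool.Agent.W778.EQ.SAT
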